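import Mathlib

set_option autoImplicit false

namespace Pool.Agent.H.MP_4bab84_co
open Set

structure St {n : ℕ} (G : SimpleGraph (Fin n)) (x y : Fin n → ℝ) : Prop where
  ty : ∀ u, (y u = 0 ∧ 0 < x u) ∨ (y u = 1 ∧ x u = 0) ∨ (y u = -1 ∧ x u = 0)
  inj : ∀ u v, x u = x v → y u = y v → u = v
  nb : ∀ u v w, G.Adj u v → y u = 0 → y v = 0 → y w = 0 → x u < x w → x w < x v → False

def Mod {n m : ℕ} (G : SimpleGraph (Fin n)) (H : SimpleGraph (Fin m)) (B : Fin m → Set (Fin n)) :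
    Prop :=
  (∀ i, (G.induce (B i)).Connected) ∧ (∀ i j, i ≠ j → Disjoint (B i) (B j)) ∧
    (∀ i j, i ≠ j → (H.Adj i j ↔ ∃ u ∈ B i, ∃ v ∈ B j, G.Adj u v))

variable {n m : ℕ} {G : SimpleGraph (Fin n)} {H : SimpleGraph (Fin m)} {x y : Fin n → ℝ}

lemma St.step (h : St G x y) {u v w : Fin n} (a : G.Adj u v) (hu : y u = 0) (hv : y v = 0)
    (hw : y w = 0) (vw : v ≠ w) (l : x u < x w) : x v < x w := by
  rcases lt_trichotomy (x v) (x w) with b | b | b
  · exact b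
  · exact absurd (h.inj v w b (hv.trans hw.symm)) vw
  · exact (h.nb u v w a hu hv hw l b).elim

lemma St.side (h : St G x y) {S : Set (Fin n)} (c : (G.induce S).Connected) (hS : ∀ u ∈ S, y u = 0)
    {w : Fin n} (hw : y w = 0) (nw : w ∉ S) {u v : Fin n} (hu : u ∈ S) (hv : v ∈ S)
    (l : x u < x w) : x v < x w := by
  obtain ⟨p⟩ := c.preconnected ⟨u, hu⟩ ⟨v, hv⟩
  have : ∀ (a b : S) (_ : (G.induce S).Walk a b), x a < x w → x b < x w := by
    intro a b p
    induction p with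
    | nil => exact id
    | @cons a c _ e _ ih =>
      exact fun l => ih (h.step e (hS _ a.2) (hS _ c.2) hw (fun e => nw (e ▸ c.2)) l)
  exact this _ _ p l

lemma St.minor (h : St G x y) {B : Fin m → Set (Fin n)} (hB : Mod G H B) :
    ∃ r : Fin m → Fin n, (∀ i, r i ∈ B i) ∧ (∀ i, y (r i) = 0 → ∀ u ∈ B i, y u = 0) ∧
      St H (x ∘ r) (y ∘ r) := by
  have : ∀ i, ∃ r ∈ B i, y r = 0 → ∀ u ∈ B i, y u = 0 := by
    intro i
    by_cases a : ∃ u ∈ B i, y u ≠ 0
    · obtain ⟨u, hu, b⟩ := a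
      exact ⟨u, hu, fun c => absurd c b⟩
    · obtain ⟨⟨u, hu⟩⟩ := (hB.1 i).nonempty
      push Not at a
      exact ⟨u, hu, fun _ => a⟩
  choose r h1 h2 using this
  have ne : ∀ i j, i ≠ j → ∀ u ∈ B i, u ∉ B j := fun i j ij u hu =>
    Set.disjoint_left.1 (hB.2.1 i j ij) hu
  refine ⟨r, h1, h2, fun u => h.ty _, fun u v a b => ?_, fun i j k a yi yj yk l1 l2 => ?_⟩
  · by_contra c
    exact ne u v c _ (h1 u) (h.inj _ _ a b ▸ h1 v)
  · obtain ⟨u, hu, v, hv, e⟩ := (hB.2.2 i j a.ne).1 a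
    have ki : k ≠ i := fun e => by rw [e] at l1; exact lt_irrefl _ l1
    have kj : k ≠ j := fun e => by rw [e] at l2; exact lt_irrefl _ l2
    have s1 := h.side (hB.1 i) (h2 i yi) yk (ne k i ki _ (h1 k)) (h1 i) hu l1
    have s2 := h.step e (h2 i yi u hu) (h2 j yj v hv) yk
      (fun e => ne k j kj _ (h1 k) (e ▸ hv)) s1
    exact lt_asymm l2 (h.side (hB.1 j) (h2 j yj) yk (ne k j kj _ (h1 k)) hv (h1 j) s2)

lemma St.two (h : St G x y) {c u v : Fin n} (a : G.Adj c u) (b : G.Adj c v) (yc : y c = 0)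
    (yu : y u = 0) (yv : y v = 0) (uv : u ≠ v) : x c < x u ↔ x v < x c := by
  have n1 : x u ≠ x v := fun e => uv (h.inj _ _ e (yu.trans yv.symm))
  have n2 : x c ≠ x u := fun e => a.ne (h.inj _ _ e (yc.trans yu.symm))
  have n3 : x c ≠ x v := fun e => b.ne (h.inj _ _ e (yc.trans yv.symm))
  have k1 := h.nb c u v a yc yu yv
  have k2 := h.nb c v u b yc yv yu
  have k3 := h.nb u c v a.symm yu yc yv
  have k4 := h.nb v c u b.symm yv yc yu
  rcases n1.lt_or_gt with a1 | a1 <;> rcases n2.lt_or_gt with a2 | a2 <;>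
    rcases n3.lt_or_gt with a3 | a3 <;>
    first | exact ⟨fun _ => a3, fun _ => a2⟩ | exact (k1 a3 a1).elim | exact (k2 a2 a1).elim |
      exact (k3 a1 a3).elim | exact (k4 a1 a2).elim |
      exact ⟨fun e => absurd e a2.not_gt, fun e => absurd e a3.not_gt⟩

lemma St.uniq (h : St G x y) {u v : Fin n} (a : y u ≠ 0) (b : y u = y v) : u = v := by
  refine h.inj u v ?_ b
  rcases h.ty u with c | c | c <;> rcases h.ty v with d | d | d <;>
    first | exact absurd c.1 a | exact absurd (b.trans d.1) a | exact c.2.trans d.2.symm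

lemma St.big (h : St G x y) {c : Fin n} (S : Finset (Fin n)) (hS : ∀ u ∈ S, G.Adj c u)
    (h5 : 5 ≤ S.card) : y c ≠ 0 := by
  intro yc
  have c1 : ∀ t : ℝ, t ≠ 0 → (S.filter fun u => y u = t).card ≤ 1 := by
    intro t ht
    rw [Finset.card_le_one]
    intro u hu v hv
    rw [Finset.mem_filter] at hu hv
    exact h.uniq (hu.2 ▸ ht) (hu.2.trans hv.2.symm)
  have sub : S ⊆ (S.filter fun u => y u = 0) ∪ (S.filter fun u => y u = 1) ∪
      (S.filter fun u => y u = -1) := by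
    intro p hp
    have := h.ty p
    simp only [Finset.mem_union, Finset.mem_filter]
    tauto
  have d1 := (Finset.card_le_card sub).trans (Finset.card_union_le _ _)
  have d2 := Finset.card_union_le (S.filter fun u => y u = 0) (S.filter fun u => y u = 1)
  have d3 := c1 1 one_ne_zero
  have d4 := c1 (-1) (by norm_num)
  obtain ⟨u, v, w, hu, hv, hw, uv, uw, vw⟩ :=
    (Finset.two_lt_card_iff (s := S.filter fun u => y u = 0)).1 (by omega)
  rw [Finset.mem_filter] at hu hv hw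
  have e1 := h.two (hS u hu.1) (hS v hv.1) yc hu.2 hv.2 uv
  have e2 := h.two (hS v hv.1) (hS w hw.1) yc hv.2 hw.2 vw
  have e3 := h.two (hS w hw.1) (hS u hu.1) yc hw.2 hu.2 uw.symm
  have e4 := h.two (hS v hv.1) (hS u hu.1) yc hv.2 hu.2 uv.symm
  have e5 := h.two (hS u hu.1) (hS w hw.1) yc hu.2 hw.2 uw
  rcases (show x c ≠ x u from fun e => (hS u hu.1).ne (h.inj _ _ e (yc.trans hu.2.symm))).lt_or_gt
    with a | a
  · exact lt_asymm (e1.1 a) (e2.2 (e5.1 a))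
  · exact lt_asymm (e3.2 a) (e2.1 (e4.2 a))

lemma St.rest (h : St G x y) {a b u : Fin n} (ab : a ≠ b) (ha : y a ≠ 0) (hb : y b ≠ 0)
    (ua : u ≠ a) (ub : u ≠ b) : y u = 0 := by
  by_contra hu
  have e1 : y a ≠ y b := fun e => ab (h.uniq ha e)
  have e2 : y u ≠ y a := fun e => ua (h.uniq hu e)
  have e3 : y u ≠ y b := fun e => ub (h.uniq hu e)
  rcases h.ty u with c | c | c <;> rcases h.ty a with d | d | d <;> rcases h.ty b with e | e | e <;>
    simp_all

def K (x y : Fin n → ℝ) (u v : Fin n) (p q : ℝ) : Prop :=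
  (y u = 0 ∧ y v = 0 ∧ q = 0 ∧ x u < p ∧ p < x v) ∨
  (y u = 1 ∧ y v = 0 ∧ 0 < q ∧ q < 1 ∧ p = (1 - q) * x v) ∨
  (y u = -1 ∧ y v = 0 ∧ -1 < q ∧ q < 0 ∧ p = (1 + q) * x v) ∨
  (y u = 1 ∧ y v = -1 ∧ p = 0 ∧ -1 < q ∧ q < 1)

lemma St.kA (h : St G x y) {u v : Fin n} (uv : u ≠ v) {t : ℝ} (t0 : 0 < t) (t1 : t < 1) :
    K x y u v (t * (x v - x u) + x u) (t * (y v - y u) + y u) ∨
      K x y v u (t * (x v - x u) + x u) (t * (y v - y u) + y u) := by
  rcases h.ty u with ⟨a, b⟩ | ⟨a, b⟩ | ⟨a, b⟩ <;> rcases h.ty v with ⟨c, d⟩ | ⟨c, d⟩ | ⟨c, d⟩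
  · rcases (show x u ≠ x v from fun e => uv (h.inj _ _ e (a.trans c.symm))).lt_or_gt with e | e
    · exact .inl (.inl ⟨a, c, by rw [a, c]; ring, by nlinarith, by nlinarith⟩)
    · exact .inr (.inl ⟨c, a, by rw [a, c]; ring, by nlinarith, by nlinarith⟩)
  · exact .inr (.inr (.inl ⟨c, a, by rw [a, c]; linarith, by rw [a, c]; linarith,
      by rw [a, c, d]; ring⟩))
  · exact .inr (.inr (.inr (.inl ⟨c, a, by rw [a, c]; linarith, by rw [a, c]; linarith,
      by rw [a, c, d]; ring⟩)))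
  · exact .inl (.inr (.inl ⟨a, c, by rw [a, c]; linarith, by rw [a, c]; linarith,
      by rw [a, c, b]; ring⟩))
  · exact absurd (h.inj _ _ (b.trans d.symm) (a.trans c.symm)) uv
  · exact .inl (.inr (.inr (.inr ⟨a, c, by rw [b, d]; ring, by rw [a, c]; linarith,
      by rw [a, c]; linarith⟩)))
  · exact .inl (.inr (.inr (.inl ⟨a, c, by rw [a, c]; linarith, by rw [a, c]; linarith,
      by rw [a, c, b]; ring⟩)))
  · exact .inr (.inr (.inr (.inr ⟨c, a, by rw [b, d]; ring, by rw [a, c]; linarith,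
      by rw [a, c]; linarith⟩)))
  · exact absurd (h.inj _ _ (b.trans d.symm) (a.trans c.symm)) uv

lemma St.kB (h : St G x y) {u v w : Fin n} (e : G.Adj u v) (k : K x y u v (x w) (y w)) : False := by
  rcases k with k | k | k | k
  · exact h.nb u v w e k.1 k.2.1 k.2.2.1 k.2.2.2.1 k.2.2.2.2
  all_goals
    obtain ⟨-, -, k1, k2, k3⟩ := k
    rcases h.ty w with ⟨a, b⟩ | ⟨a, b⟩ | ⟨a, b⟩ <;> linarith

lemma St.kC (h : St G x y) {u v u' v' : Fin n} (e : G.Adj u v) (e' : G.Adj u' v') {p q : ℝ}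
    (k : K x y u v p q) (k' : K x y u' v' p q) : u = u' ∧ v = v' := by
  have pos : ∀ w, y w = 0 → 0 < x w := by
    intro w hw
    rcases h.ty w with ⟨a, b⟩ | ⟨a, b⟩ | ⟨a, b⟩
    · exact b
    all_goals linarith
  rcases k with ⟨a1, a2, a3, a4, a5⟩ | ⟨a1, a2, a3, a4, a5⟩ | ⟨a1, a2, a3, a4, a5⟩ |
      ⟨a1, a2, a3, a4, a5⟩ <;>
    rcases k' with ⟨b1, b2, b3, b4, b5⟩ | ⟨b1, b2, b3, b4, b5⟩ | ⟨b1, b2, b3, b4, b5⟩ |
      ⟨b1, b2, b3, b4, b5⟩
  · refine ⟨h.inj _ _ (le_antisymm (not_lt.1 fun c => ?_) (not_lt.1 fun c => ?_)) (a1.trans b1.symm),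
      h.inj _ _ (le_antisymm (not_lt.1 fun c => ?_) (not_lt.1 fun c => ?_)) (a2.trans b2.symm)⟩
    · exact h.nb u' v' u e' b1 b2 a1 c (a4.trans b5)
    · exact h.nb u v u' e a1 a2 b1 c (b4.trans a5)
    · exact h.nb u v v' e a1 a2 b2 (a4.trans b5) c
    · exact h.nb u' v' v e' b1 b2 a2 (b4.trans a5) c
  all_goals first
    | (exfalso; linarith)
    | (exfalso; linarith [pos _ a1])
    | (exfalso; linarith [pos _ b1])
    | (exfalso; nlinarith [pos _ a2])
    | (exfalso; nlinarith [pos _ b2])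
    | exact ⟨h.uniq (by rw [a1]; norm_num) (a1.trans b1.symm),
        h.inj _ _ (mul_left_cancel₀ (by linarith) (a5.symm.trans b5)) (a2.trans b2.symm)⟩
    | exact ⟨h.uniq (by rw [a1]; norm_num) (a1.trans b1.symm),
        h.uniq (by rw [a2]; norm_num) (a2.trans b2.symm)⟩

lemma St.planar (h : St G x y) : ∃ f : Fin n → ℝ × ℝ, Function.Injective f ∧
    ∃ γ : (i j : Fin n) → Path (f i) (f j),
      (∀ i j, G.Adj i j → i < j → Function.Injective ⇑(γ i j)) ∧
      (∀ i j, G.Adj i j → i < j → ∀ t : unitInterval, (t : ℝ) ∈ Set.Ioo (0 : ℝ) 1 →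
          ∀ v, γ i j t ≠ f v) ∧
      (∀ i j k l, G.Adj i j → i < j → G.Adj k l → k < l → (i ≠ k ∨ j ≠ l) →
        ∀ s t : unitInterval, (s : ℝ) ∈ Set.Ioo (0 : ℝ) 1 → (t : ℝ) ∈ Set.Ioo (0 : ℝ) 1 →
          γ i j s ≠ γ k l t) := by
  have inj : Function.Injective fun u => (x u, y u) := fun u v e =>
    h.inj u v (congrArg Prod.fst e) (congrArg Prod.snd e)
  have ev : ∀ (u v : Fin n) (t : unitInterval), Path.segment (x u, y u) (x v, y v) t =
      (t * (x v - x u) + x u, t * (y v - y u) + y u) := by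
    intro u v t
    simp [Path.segment_apply, AffineMap.lineMap_apply]
  refine ⟨_, inj, fun i j => Path.segment _ _, fun i j a _ s t e => ?_, fun i j a _ t ht v e => ?_,
    fun i j k l a ij b kl ne s t hs ht e => ?_⟩
  · exact Subtype.ext (AffineMap.lineMap_injective ℝ (fun c => a.ne (inj c)) e)
  · rw [ev] at e
    obtain ⟨e1, e2⟩ := Prod.mk.inj e
    have := h.kA a.ne ht.1 ht.2
    rw [e1, e2] at this
    exact this.elim (h.kB a) (h.kB a.symm)
  · rw [ev, ev] at e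
    obtain ⟨e1, e2⟩ := Prod.mk.inj e
    have k1 := h.kA a.ne hs.1 hs.2
    rw [e1, e2] at k1
    rcases k1 with k1 | k1 <;> rcases h.kA b.ne ht.1 ht.2 with k2 | k2
    · have := h.kC a b k1 k2; omega
    · have := h.kC a b.symm k1 k2; omega
    · have := h.kC a.symm b k1 k2; omega
    · have := h.kC a.symm b.symm k1 k2; omega

end Pool.Agent.H.MP_4bab84_co
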