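import Mathlib
import Pool.Agent.H.MP_4bab84_co.A

set_option autoImplicit false

namespace Pool.Agent.H.MP_4bab84_co
open Set

lemma five {n : ℕ} {G : SimpleGraph (Fin n)} {x y : Fin n → ℝ} (h : St G x y) (c : Fin n) (e : ℕ)
    (he : e + 8 < n) (a : ∀ u : Fin n, e ≤ u.val → u.val ≤ e + 8 → u.val % 2 = e % 2 → G.Adj c u) :
    y c ≠ 0 := by
  refine h.big (Finset.univ.image fun i : Fin 5 => (⟨e + 2 * i, by omega⟩ : Fin n)) ?_ ?_
  · intro u hu
    obtain ⟨i, -, rfl⟩ := Finset.mem_image.1 hu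
    exact a _ (by simp) (by simp only []; omega) (by simp only []; omega)
  · rw [Finset.card_image_of_injective]
    · simp
    · intro i j e
      simp only [Fin.mk.injEq] at e
      omega

lemma wheel (k : ℕ) (x y : Fin (2 * k + 2) → ℝ)
    (h : St (SimpleGraph.fromRel (fun a b : Fin (2 * k + 2) =>
      (a.val < 2 * k ∧ b.val < 2 * k ∧ b.val = (a.val + 1) % (2 * k)) ∨
      (a.val = 2 * k ∧ b.val < 2 * k ∧ b.val % 2 = 0) ∨
      (a.val = 2 * k + 1 ∧ b.val < 2 * k ∧ b.val % 2 = 1))) x y) : k ≤ 5 := by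
  by_contra hk
  have ha := five h ⟨2 * k, by omega⟩ 0 (by omega) fun u _ a b => by
    rw [SimpleGraph.fromRel_adj]
    exact ⟨fun e => by rw [← e] at a; simp only [] at a; omega, .inl (.inr (.inl ⟨rfl, by omega, b⟩))⟩
  have hb := five h ⟨2 * k + 1, by omega⟩ 1 (by omega) fun u _ a b => by
    rw [SimpleGraph.fromRel_adj]
    exact ⟨fun e => by rw [← e] at a; simp only [] at a; omega, .inl (.inr (.inr ⟨rfl, by omega, b⟩))⟩
  have rim : ∀ u : Fin (2 * k + 2), u.val < 2 * k → y u = 0 := fun u hu =>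
    h.rest (by simp) ha hb (fun e => by rw [e] at hu; simp at hu) (fun e => by rw [e] at hu; simp at hu)
  obtain ⟨c, hc, mn⟩ := Finset.exists_min_image
    (Finset.univ.filter fun u : Fin (2 * k + 2) => u.val < 2 * k) x ⟨⟨0, by omega⟩, by simp; omega⟩
  simp only [Finset.mem_filter, Finset.mem_univ, true_and] at hc mn
  have md : ∀ a, a < 2 * k → (a + 1) % (2 * k) = if a + 1 = 2 * k then 0 else a + 1 := by
    intro a ha
    split_ifs with e
    · rw [e, Nat.mod_self]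
    · exact Nat.mod_eq_of_lt (by omega)
  obtain ⟨v, v1, v2⟩ : ∃ v : Fin (2 * k + 2), v.val < 2 * k ∧
      v.val = if c.val + 1 = 2 * k then 0 else c.val + 1 :=
    ⟨⟨if c.val + 1 = 2 * k then 0 else c.val + 1, by split_ifs <;> omega⟩,
      by simp only []; split_ifs <;> omega, rfl⟩
  obtain ⟨w, w1, w2⟩ : ∃ w : Fin (2 * k + 2), w.val < 2 * k ∧
      w.val = if c.val = 0 then 2 * k - 1 else c.val - 1 :=
    ⟨⟨if c.val = 0 then 2 * k - 1 else c.val - 1, by split_ifs <;> omega⟩,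
      by simp only []; split_ifs <;> omega, rfl⟩
  have cv : c ≠ v := fun e => by rw [← e] at v2; split_ifs at v2 <;> omega
  have cw : c ≠ w := fun e => by rw [← e] at w2; split_ifs at w2 <;> omega
  have vw : v ≠ w := fun e => by rw [← e] at w2; split_ifs at v2 w2 <;> omega
  have := h.two (c := c) (u := v) (v := w)
    ((SimpleGraph.fromRel_adj _ _ _).2 ⟨cv, .inl (.inl ⟨hc, v1, by rw [md _ hc]; exact v2⟩)⟩)
    ((SimpleGraph.fromRel_adj _ _ _).2 ⟨cw, .inr (.inl ⟨w1, hc, by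
      rw [md _ w1]; split_ifs at w2 ⊢ <;> omega⟩)⟩) (rim c hc) (rim v v1) (rim w w1) vw
  exact (mn w w1).not_gt (this.1 (lt_of_le_of_ne (mn v v1) fun e =>
    cv (h.inj _ _ e ((rim c hc).trans (rim v v1).symm))))

def Gr (n : ℕ) : SimpleGraph (Fin (n + 4)) := SimpleGraph.fromRel fun a b =>
  (b.val = a.val + 1 ∧ b.val ≤ n + 1) ∨ (a.val = n + 2 ∧ 1 ≤ b.val ∧ b.val ≤ n ∧ b.val % 2 = 1) ∨
    (a.val = n + 3 ∧ 1 ≤ b.val ∧ b.val ≤ n ∧ b.val % 2 = 0)

lemma adj {n : ℕ} (a b : Fin (n + 4)) : (Gr n).Adj a b ↔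
    ((b.val = a.val + 1 ∧ b.val ≤ n + 1) ∨ (a.val = n + 2 ∧ 1 ≤ b.val ∧ b.val ≤ n ∧ b.val % 2 = 1) ∨
      (a.val = n + 3 ∧ 1 ≤ b.val ∧ b.val ≤ n ∧ b.val % 2 = 0)) ∨
    ((a.val = b.val + 1 ∧ a.val ≤ n + 1) ∨ (b.val = n + 2 ∧ 1 ≤ a.val ∧ a.val ≤ n ∧ a.val % 2 = 1) ∨
      (b.val = n + 3 ∧ 1 ≤ a.val ∧ a.val ≤ n ∧ a.val % 2 = 0)) := by
  rw [Gr, SimpleGraph.fromRel_adj]
  exact ⟨fun h => h.2, fun h => ⟨fun e => by rw [e] at h; omega, h⟩⟩

noncomputable def xs (n : ℕ) (u : Fin (n + 4)) : ℝ := if u.val ≤ n + 1 then u.val + 1 else 0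

noncomputable def ys (n : ℕ) (u : Fin (n + 4)) : ℝ :=
  if u.val ≤ n + 1 then 0 else if u.val = n + 2 then 1 else -1

lemma ys0 {n : ℕ} (u : Fin (n + 4)) : ys n u = 0 ↔ u.val ≤ n + 1 := by
  unfold ys; split_ifs <;> simp [*]

lemma st (n : ℕ) : St (Gr n) (xs n) (ys n) := by
  refine ⟨fun u => ?_, fun u v a b => ?_, fun u v w a hu hv hw l1 l2 => ?_⟩
  · unfold xs ys
    split_ifs
    · exact .inl ⟨rfl, by positivity⟩
    · simp
    · simp
  · unfold xs at a
    unfold ys at b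
    apply Fin.ext
    split_ifs at a b <;> first | omega | (norm_num at b; done) | exact_mod_cast add_right_cancel a
  · rw [ys0] at hu hv hw
    simp only [xs, hu, hv, hw, if_true, add_lt_add_iff_right, Nat.cast_lt] at l1 l2
    rw [adj] at a
    omega

lemma anti {n m : ℕ} (hn : 10 ≤ n) (nm : n < m) (B : Fin (n + 4) → Set (Fin (m + 4)))
    (hB : Mod (Gr m) (Gr n) B) : False := by
  obtain ⟨r, r1, r2, h⟩ := (st m).minor hB
  obtain ⟨a, ea⟩ : ∃ a : Fin (n + 4), a.val = n + 2 := ⟨⟨n + 2, by omega⟩, rfl⟩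
  obtain ⟨b, eb⟩ : ∃ a : Fin (n + 4), a.val = n + 3 := ⟨⟨n + 3, by omega⟩, rfl⟩
  obtain ⟨z, ez⟩ : ∃ a : Fin (n + 4), a.val = 0 := ⟨⟨0, by omega⟩, rfl⟩
  obtain ⟨o, eo⟩ : ∃ a : Fin (n + 4), a.val = n + 1 := ⟨⟨n + 1, by omega⟩, rfl⟩
  have ha := five h a 1 (by omega) fun u _ _ _ => by rw [adj]; omega
  have hb := five h b 2 (by omega) fun u _ _ _ => by rw [adj]; omega
  have pth : ∀ i : Fin (n + 4), i.val ≤ n + 1 → ∀ u ∈ B i, u.val ≤ m + 1 := fun i hi u hu =>
    (ys0 u).1 (r2 i (h.rest (by omega) ha hb (by omega) (by omega)) u hu)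
  have dj : ∀ i j : Fin (n + 4), i.val ≠ j.val → ∀ u ∈ B i, u.val ≠ (r j).val := by
    intro i j ij u hu e
    exact Set.disjoint_left.1 (hB.2.1 i j (by omega)) hu (by rw [Fin.ext e]; exact r1 j)
  have ra : ¬ (r a).val ≤ m + 1 := fun e => ha ((ys0 _).2 e)
  have rb : ¬ (r b).val ≤ m + 1 := fun e => hb ((ys0 _).2 e)
  have rab := dj a b (by omega) _ (r1 a)
  have la := (r a).isLt
  have lb := (r b).isLt
  have hub : ∀ i c : Fin (n + 4), i.val ≤ n + 1 → n + 2 ≤ c.val → m + 2 ≤ (r c).val → ∀ u ∈ B i,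
      1 ≤ u.val → u.val ≤ m → (u.val + m + 1) % 2 = (r c).val % 2 →
      1 ≤ i.val ∧ i.val ≤ n ∧ (i.val + n + 1) % 2 = c.val % 2 := by
    intro i c hi hc hr u hu u1 u2 u3
    have := (hB.2.2 i c (by omega)).2 ⟨u, hu, _, r1 c, by
      have := (r c).isLt
      rw [adj]; omega⟩
    rw [adj] at this
    omega
  have ends : ∀ i : Fin (n + 4), i.val = 0 ∨ i.val = n + 1 → ∀ u ∈ B i,
      u.val = 0 ∨ u.val = m + 1 := by
    intro i hi u hu
    have h1 := hub i a (by omega) (by omega) (by omega) u hu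
    have h2 := hub i b (by omega) (by omega) (by omega) u hu
    have h3 := pth i (by omega) u hu
    omega
  have e0 := ends z (.inl ez) _ (r1 _)
  have e1 := ends o (.inr eo) _ (r1 _)
  have e2 := dj z o (by omega) _ (r1 z)
  have noe : ∀ i : Fin (n + 4), i.val ≤ n + 1 → ∀ u ∈ B i, ∀ v ∈ B i, v.val ≠ u.val + 1 := by
    intro i hi u hu v hv e
    have p2 := pth i hi v hv
    by_cases c : i.val = 0 ∨ i.val = n + 1
    · have := ends i c u hu
      have := ends i c v hv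
      omega
    have q1 := dj i z (by omega) u hu
    have q2 := dj i o (by omega) u hu
    have q3 := dj i z (by omega) v hv
    have q4 := dj i o (by omega) v hv
    have u1 : 1 ≤ u.val := by omega
    have v1 : v.val ≤ m := by omega
    have h1 := fun e => (hub i a hi (by omega) (by omega) u hu u1 (by omega) e).2.2
    have h2 := fun e => (hub i b hi (by omega) (by omega) u hu u1 (by omega) e).2.2
    have h3 := fun e => (hub i a hi (by omega) (by omega) v hv (by omega) v1 e).2.2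
    have h4 := fun e => (hub i b hi (by omega) (by omega) v hv (by omega) v1 e).2.2
    omega
  have one : ∀ i : Fin (n + 4), i.val ≤ n + 1 → ∀ u ∈ B i, u = r i := by
    intro i hi u hu
    obtain ⟨p⟩ := (hB.1 i).preconnected ⟨u, hu⟩ ⟨r i, r1 i⟩
    by_contra ne
    obtain ⟨c, e, -⟩ := SimpleGraph.Walk.exists_eq_cons_of_ne (fun e => ne (congrArg Subtype.val e)) p
    have e' : (Gr m).Adj u c.1 := e
    have := noe i hi _ hu _ c.2
    have := noe i hi _ c.2 _ hu
    have := pth i hi _ hu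
    have := pth i hi _ c.2
    rw [adj] at e'
    omega
  have walk : ∀ k, ∀ i : Fin (n + 4), i.val = k → k ≤ n + 1 →
      (r i).val ≤ (r z).val + k ∧ (r z).val ≤ (r i).val + k := by
    intro k
    induction k with
    | zero => intro i hi _; rw [show i = z by omega]; simp
    | succ k ih =>
      intro i hi hk
      obtain ⟨j, ej⟩ : ∃ a : Fin (n + 4), a.val = k := ⟨⟨k, by omega⟩, rfl⟩
      have := ih j ej (by omega)
      obtain ⟨u, hu, v, hv, e⟩ := (hB.2.2 j i (by omega)).1 (by rw [adj]; omega)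
      have p1 := pth _ (by omega) u hu
      have p2 := pth _ (by omega) v hv
      rw [one _ (by omega) u hu] at e p1
      rw [one _ (by omega) v hv] at e p2
      rw [adj] at e
      omega
  have := walk (n + 1) o eo le_rfl
  omega

end Pool.Agent.H.MP_4bab84_co
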